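import Pool.Agent.Lib.MP_5de7bf_an.Own

/-!
# Isolation of the first `q`-eigenvalue, `q > 2`

The definitions `IsTestFunction`, `InH10`, `IsEigenfunction`, `qSpectrum` and `firstEigenvalue` are
in `Pool.Agent.Lib.MP_5de7bf_an.Own`.
-/

open Pool.Agent.MP_5de7bf_an MeasureTheory

/-- **The first `q`-eigenvalue is isolated.**  Let `N ≥ 2`, let `Ω ⊆ ℝ^N` be a bounded open set and
`2 < q < 2*`.  Every `q`-eigenvalue is at least the first one, which is isolated; only finitely many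
`q`-eigenvalues are at most `2 ^ (1 - 2 / q)` times the first one; and below any bound only finitely
many `q`-eigenvalues have a nonnegative eigenfunction. -/
theorem Pool.Agent.Results.MP_5de7bf_an.FiniteBelowThreshold.result
    (N : ℕ) (hN : 2 ≤ N) (Ω : Set (EuclideanSpace ℝ (Fin N))) (hΩ : IsOpen Ω)
    (hb : Bornology.IsBounded Ω) (q : ℝ) (hq : 2 < q) (hqN : ((N : ℝ) - 2) * q < 2 * (N : ℝ)) :
    (∀ lam ∈ qSpectrum Ω q, 0 < firstEigenvalue Ω q ∧ firstEigenvalue Ω q ≤ lam) ∧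
    (∃ ε : ℝ, 0 < ε ∧ ∀ lam ∈ qSpectrum Ω q, |lam - firstEigenvalue Ω q| < ε →
      lam = firstEigenvalue Ω q) ∧
    {lam ∈ qSpectrum Ω q | lam ≤ 2 ^ (1 - 2 / q) * firstEigenvalue Ω q}.Finite ∧
    (∀ R : ℝ, {lam : ℝ | lam ≤ R ∧ ∃ u G, IsEigenfunction Ω q lam u G ∧
      ∀ᵐ x, 0 ≤ u x}.Finite) :=
  own_main hN hΩ hb hq hqN
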